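import Pool.Agent.helper93.ADV.SpecU

set_option autoImplicit false

/-! Row adv:DRP (MP_069684_lc): the output has few descents along an increasing sequence. -/

namespace Pool.Agent.ADV

open Finset Pool.Agent.helper38.Neg Pool.Agent.helper55.NT Pool.Agent.LNB

theorem DRP (hNRP : NRP_stmt) : DRP_stmt := by
  intro n s u K N C o hpat x hx hagr
  obtain ⟨h1, h2⟩ := hNRP
  obtain ⟨v, hv⟩ : ∃ v : ℕ → List Bool, v = fun i => C.notVals (x i) := ⟨_, rfl⟩
  have hvi : ∀ i, v i = C.notVals (x i) := fun i => by rw [hv]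
  obtain ⟨S, hS⟩ : ∃ S : Finset ℕ, S = (range N).filter fun i => C.val (x i) o = true ∧ C.val (x (i + 1)) o = false :=
    ⟨_, rfl⟩
  have hne : ∀ i ∈ S, v i ≠ v (i + 1) := by
    intro i hi heq
    rw [hS, mem_filter] at hi
    rw [hvi, hvi] at heq
    have h3 := h2 n s C (x i) (x (i + 1)) (hx (Nat.le_succ i)) heq o hi.2.1
    rw [hi.2.2] at h3
    exact Bool.false_ne_true h3
  have hconv : ∀ i j k : ℕ, i ≤ j → j ≤ k → v i = v k → v j = v i := by
    intro i j k hij hjk heq
    rw [hvi, hvi] at heq ⊢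
    exact h1 n s C (x i) (x j) (x k) (hx hij) (hx hjk) heq
  have hlt : ∀ i j : ℕ, j ∈ S → i < j → v (i + 1) ≠ v (j + 1) := by
    intro i j hj hij heq
    have h3 := hconv (i + 1) j (j + 1) hij (Nat.le_succ j) heq
    exact hne j hj (h3.trans heq)
  have hinj : Set.InjOn (fun i => v (i + 1)) (S : Set ℕ) := by
    intro i hi j hj heq
    simp only at heq
    rcases lt_trichotomy i j with h | h | h
    · exact absurd heq (hlt i j (Finset.mem_coe.1 hj) h)
    · exact h
    · exact absurd heq.symm (hlt j i (Finset.mem_coe.1 hi) h)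
  have h0 : v 0 ∉ S.image fun i => v (i + 1) := by
    intro h
    obtain ⟨i, hi, heq⟩ := mem_image.1 h
    have h3 := hconv 0 i (i + 1) (Nat.zero_le i) (Nat.le_succ i) heq.symm
    exact hne i hi (h3.trans heq.symm)
  have hcard : (insert (v 0) (S.image fun i => v (i + 1))).card = S.card + 1 := by
    rw [card_insert_of_notMem h0, card_image_of_injOn hinj]
  have hsub : ((insert (v 0) (S.image fun i => v (i + 1)) : Finset (List Bool)) : Set (List Bool)) ⊆
      Set.range fun i => C.notVals (x i) := by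
    intro l hl
    rw [Finset.mem_coe, mem_insert, mem_image] at hl
    rcases hl with rfl | ⟨i, -, rfl⟩
    · exact ⟨0, (hvi 0).symm⟩
    · exact ⟨i + 1, (hvi (i + 1)).symm⟩
  have hle := (Set.encard_le_encard hsub).trans (hpat x hx hagr)
  rw [Set.encard_coe_eq_coe_finsetCard, hcard] at hle
  rw [← hS]
  exact_mod_cast hle

end Pool.Agent.ADV
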