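import Pool.Agent.helper93.ADV.SpecU

/-! Row adv:PPO (MP_069684_lc): the parity of the first bits is in P/Poly. -/

set_option autoImplicit false

namespace Pool.Agent.ADV

open Finset Pool.Agent.helper38.Neg Pool.Agent.helper55.NT Pool.Agent.LNB

/-- the parity of the first `i` bits -/
def PPO_p (n i : ℕ) : Fn n := fun z => decide (wtu i z % 2 = 0)

theorem PPO_zero (n : ℕ) : PPO_p n 0 = fun _ => true := by
  funext z
  unfold PPO_p wtu
  simp

theorem PPO_succ {n : ℕ} (i : Fin n) (z : Fin n → Bool) :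
    wtu ((i : ℕ) + 1) z = wtu (i : ℕ) z + if z i = true then 1 else 0 := by
  unfold wtu
  split_ifs with h
  · have h1 : (univ.filter fun l : Fin n => (l : ℕ) < (i : ℕ) + 1 ∧ z l = true) =
        insert i (univ.filter fun l : Fin n => (l : ℕ) < (i : ℕ) ∧ z l = true) := by
      ext l
      simp only [Finset.mem_filter, Finset.mem_univ, true_and, Finset.mem_insert]
      constructor
      · rintro ⟨h1, h2⟩
        by_cases hl : l = i
        · exact Or.inl hl
        · refine Or.inr ⟨?_, h2⟩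
          have : l.val ≠ i.val := fun h => hl (Fin.ext h)
          omega
      · rintro (rfl | ⟨h1, h2⟩)
        · exact ⟨by omega, h⟩
        · exact ⟨by omega, h2⟩
    rw [h1, Finset.card_insert_of_notMem]
    simp
  · rw [add_zero]
    congr 1
    ext l
    simp only [Finset.mem_filter, Finset.mem_univ, true_and]
    constructor
    · rintro ⟨h1, h2⟩
      refine ⟨?_, h2⟩
      have : l.val ≠ i.val := fun h' => h (by rwa [← Fin.ext h'])
      omega
    · rintro ⟨h1, h2⟩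
      exact ⟨by omega, h2⟩

theorem PPO_step {n : ℕ} (i : Fin n) : Rel {PPO_p n i} 5 2 {PPO_p n (i + 1)} := by
  obtain ⟨p, hp⟩ : ∃ p : Fn n, p = PPO_p n i := ⟨_, rfl⟩
  rw [← hp]
  obtain ⟨x, hx⟩ : ∃ x : Fn n, x = fun z => z i := ⟨_, rfl⟩
  obtain ⟨A1, hA1⟩ : ∃ A : Set (Fn n), A = {p} ∪ {x} := ⟨_, rfl⟩
  obtain ⟨A2, hA2⟩ : ∃ A : Set (Fn n), A = A1 ∪ {fun z => !(p z)} := ⟨_, rfl⟩
  obtain ⟨A3, hA3⟩ : ∃ A : Set (Fn n), A = A2 ∪ {fun z => !(x z)} := ⟨_, rfl⟩
  obtain ⟨A4, hA4⟩ : ∃ A : Set (Fn n), A = A3 ∪ {fun z => p z && !(x z)} := ⟨_, rfl⟩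
  obtain ⟨A5, hA5⟩ : ∃ A : Set (Fn n), A = A4 ∪ {fun z => !(p z) && x z} := ⟨_, rfl⟩
  have m12 : A1 ⊆ A2 := by rw [hA2]; exact Set.subset_union_left
  have m23 : A2 ⊆ A3 := by rw [hA3]; exact Set.subset_union_left
  have m34 : A3 ⊆ A4 := by rw [hA4]; exact Set.subset_union_left
  have m45 : A4 ⊆ A5 := by rw [hA5]; exact Set.subset_union_left
  have p1 : p ∈ A1 := by rw [hA1]; exact Or.inl rfl
  have x1 : x ∈ A1 := by rw [hA1]; exact Or.inr rfl
  have np2 : (fun z => !(p z)) ∈ A2 := by rw [hA2]; exact Or.inr rfl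
  have nx3 : (fun z => !(x z)) ∈ A3 := by rw [hA3]; exact Or.inr rfl
  have q4 : (fun z => p z && !(x z)) ∈ A4 := by rw [hA4]; exact Or.inr rfl
  have q5 : (fun z => !(p z) && x z) ∈ A5 := by rw [hA5]; exact Or.inr rfl
  have h0 : Rel {p} 0 0 {x} := by rw [hx]; exact Rel.var _ i
  have h1 : Rel A1 1 1 {fun z => !(p z)} := Rel.not p1
  have h2 : Rel A2 1 1 {fun z => !(x z)} := Rel.not (m12 x1)
  have h3 : Rel A3 1 0 {fun z => p z && !(x z)} := Rel.and (u := p) (v := fun z => !(x z)) (m23 (m12 p1)) nx3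
  have h4 : Rel A4 1 0 {fun z => !(p z) && x z} :=
    Rel.and (u := fun z => !(p z)) (v := x) (m34 (m23 np2)) (m34 (m23 (m12 x1)))
  have h5 : Rel A5 1 0 {fun z => (p z && !(x z)) || (!(p z) && x z)} :=
    Rel.or (u := fun z => p z && !(x z)) (v := fun z => !(p z) && x z) (m45 q4) q5
  rw [hA5] at h5
  have k4 := h4.trans' h5
  rw [hA4] at k4
  have k3 := h3.trans' k4
  rw [hA3] at k3
  have k2 := h2.trans' k3
  rw [hA2] at k2
  have k1 := h1.trans' k2
  rw [hA1] at k1
  have k0 := h0.trans' k1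
  refine k0.mono le_rfl ?_ (by omega) (by omega)
  rintro f rfl
  rw [Set.mem_singleton_iff]
  funext z
  rw [hp, hx]
  simp only [PPO_p, PPO_succ]
  rcases Nat.mod_two_eq_zero_or_one (wtu (i : ℕ) z) with hw | hw
  · cases hz : z i
    · simp [hw]
    · have h6 : (wtu (i : ℕ) z + 1) % 2 = 1 := by omega
      simp [hw, h6]
  · cases hz : z i
    · simp [hw]
    · have h6 : (wtu (i : ℕ) z + 1) % 2 = 0 := by omega
      simp [hw, h6]

theorem PPO_rel (n i : ℕ) (hi : i ≤ n) : Rel ∅ (1 + 5 * i) (2 * i) {PPO_p n i} := by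
  induction i with
  | zero =>
    rw [PPO_zero]
    exact (Rel.const ∅ true).mono le_rfl subset_rfl (by omega) (by omega)
  | succ i ih =>
    have h1 := ih (by omega)
    have h2 := PPO_step (⟨i, by omega⟩ : Fin n)
    have h3 : Rel (∅ ∪ {PPO_p n i}) 5 2 {PPO_p n (i + 1)} := h2.mono Set.subset_union_right subset_rfl le_rfl le_rfl
    exact (h1.trans' h3).mono le_rfl subset_rfl (by omega) (by omega)

theorem PPO : PPO_stmt := by
  intro u
  refine ⟨Polynomial.C 5 * Polynomial.X + Polynomial.C 2, fun n => ?_⟩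
  obtain ⟨s, hs, C, o, -, h⟩ := (PPO_rel n (min (u n) n) (min_le_right _ _)).toCircuit
  refine ⟨s, ?_, C, o, fun z => ?_⟩
  · have h1 : (Polynomial.C 5 * Polynomial.X + Polynomial.C 2 : Polynomial ℕ).eval n = 5 * n + 2 := by
      simp
    rw [h1]
    have := min_le_right (u n) n
    omega
  · rw [h z]
    unfold PPO_p
    rw [decide_eq_true_eq]
    have h2 : wtu (min (u n) n) z = wtu (u n) z := by
      unfold wtu
      refine congrArg Finset.card (Finset.filter_congr fun j _ => ?_)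
      have := j.2
      constructor
      · rintro ⟨h3, h4⟩
        exact ⟨lt_of_lt_of_le h3 (min_le_left _ _), h4⟩
      · rintro ⟨h3, h4⟩
        exact ⟨lt_min h3 this, h4⟩
    rw [h2]

end Pool.Agent.ADV
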